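import Pool.Agent.Helper32.CL.St3

/-!
# CL MODULE CI1: the functional and its derivative
-/

set_option autoImplicit false

namespace Pool.Agent.Helper84.CL

open Helper32.CL Helper35.PI Helper35.PI2 Pool.Agent.Helper35.CL
open scoped ContDiff Manifold Topology ENNReal BigOperators
open MeasureTheory Set Filter

theorem slice_CI1 {M : Type} [TopologicalSpace M] {V : Type} [TopologicalSpace V] {g : M → ℝ → V}
    (hg : CST g) {t : ℝ} (ht : t < 0) : Continuous (fun q => g q t) := by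
  have h : ContinuousOn (fun z : M × ℝ => g z.1 z.2) (univ ×ˢ Iio 0) := hg
  exact h.comp_continuous (f := fun q : M => (q, t)) (by fun_prop) fun q => ⟨mem_univ _, ht⟩

/-- time derivative of the weight -/
theorem gg_der {N : ℕ} {M : Type} [TopologicalSpace M] [ChartedSpace (EE 2) M]
    {F : M → ℝ → EE N} (hF : IsMCF (n := 2) F) (q : M) {t : ℝ} (ht : t < 0) :
    HasDerivAt (fun s => ggF F q s)
      (ggF F q t * (-((-2 * t)⁻¹ * inner ℝ (F q t) (HH (n := 2) F q t))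
        - ((-2 * t)⁻¹) ^ 2 * ‖F q t‖ ^ 2)) t := by
  have h1 : HasDerivAt (fun s => ‖F q s‖ ^ 2)
      (2 * inner ℝ (F q t) (HH (n := 2) F q t)) t := (hF.flow q t ht).norm_sq
  have h0 : (-2 * t) ≠ 0 := by linarith
  have h2 : HasDerivAt (fun s : ℝ => (-2 * s)⁻¹) (-(-2) / (-2 * t) ^ 2) t := by
    have h3 : HasDerivAt (fun s : ℝ => -2 * s) (-2) t := by
      simpa using (hasDerivAt_id t).const_mul (-2 : ℝ)
    exact h3.fun_inv h0
  have h4 : HasDerivAt (fun s => -((-2 * s)⁻¹ * ‖F q s‖ ^ 2 / 2))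
      (-((-(-2) / (-2 * t) ^ 2 * ‖F q t‖ ^ 2
        + (-2 * t)⁻¹ * (2 * inner ℝ (F q t) (HH (n := 2) F q t))) / 2)) t :=
    ((h2.mul h1).div_const 2).neg
  have h5 := h4.exp
  have e : (-((-(-2) / (-2 * t) ^ 2 * ‖F q t‖ ^ 2
        + (-2 * t)⁻¹ * (2 * inner ℝ (F q t) (HH (n := 2) F q t))) / 2) : ℝ) =
      -((-2 * t)⁻¹ * inner ℝ (F q t) (HH (n := 2) F q t)) - ((-2 * t)⁻¹) ^ 2 * ‖F q t‖ ^ 2 := by
    field_simp
    ring
  rw [e] at h5
  exact h5

theorem hCI1 (hMU : StMU) (hTD : StTD) (hFV : StFV) (hML : StML) (hGB : StGB) (hAF : StAF)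
    (hMD : StMD) (hCN : StCN) : StCI1 := by
  intro N M _ _ _ _ _ _ _ F c χ hS hpin δ hδ
  obtain ⟨hsm, hAF2⟩ := hAF
  obtain ⟨cg2, -, cgg, hgg, -, hGd⟩ := hGB hsm N M F hS.mcf
  obtain ⟨-, cph, cdph, hph, -⟩ := hGd δ hδ
  obtain ⟨cF, cH, cA, -⟩ := hCN N M F hS.mcf
  obtain ⟨s, hs, hmu⟩ := hMU 2 N M F c χ hS
  obtain ⟨T1, T2⟩ := hTD 2 N M F c χ hS
  -- continuity in space time
  have cκ : ContinuousOn (fun z : M × ℝ => (-2 * z.2)⁻¹) (univ ×ˢ Iio 0) := by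
    refine ContinuousOn.inv₀ (by fun_prop) ?_
    rintro ⟨q, t⟩ ⟨-, ht⟩
    have : t < 0 := ht
    show (-2 * t) ≠ 0
    linarith
  have cin : CST (fun q t => (inner ℝ (F q t) (HH (n := 2) F q t) : ℝ)) := by
    have h1 : ContinuousOn (fun z : M × ℝ => F z.1 z.2) (univ ×ˢ Iio 0) := cF
    have h2 : ContinuousOn (fun z : M × ℝ => HH (n := 2) F z.1 z.2) (univ ×ˢ Iio 0) := cH
    exact h1.inner h2
  have cF2 : CST (fun q t => ‖F q t‖ ^ 2) := by
    have h1 : ContinuousOn (fun z : M × ℝ => F z.1 z.2) (univ ×ˢ Iio 0) := cF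
    exact h1.norm.pow 2
  have cY : CST (fun q t => ‖HH (n := 2) F q t‖ ^ 2) := by
    have h1 : ContinuousOn (fun z : M × ℝ => HH (n := 2) F z.1 z.2) (univ ×ˢ Iio 0) := cH
    exact h1.norm.pow 2
  set g : M → ℝ → ℝ := fun q t => ggF F q t * phF δ F q t with hg
  set g' : M → ℝ → ℝ := fun q t =>
    ggF F q t * (-((-2 * t)⁻¹ * inner ℝ (F q t) (HH (n := 2) F q t))
        - ((-2 * t)⁻¹) ^ 2 * ‖F q t‖ ^ 2) * phF δ F q t
      + ggF F q t * deriv (fun s => phF δ F q s) t with hg'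
  have cg : CST g := by
    have h1 : ContinuousOn (fun z : M × ℝ => ggF F z.1 z.2) (univ ×ˢ Iio 0) := cgg
    have h2 : ContinuousOn (fun z : M × ℝ => phF δ F z.1 z.2) (univ ×ˢ Iio 0) := cph
    exact h1.mul h2
  have cg' : CST g' := by
    have h1 : ContinuousOn (fun z : M × ℝ => ggF F z.1 z.2) (univ ×ˢ Iio 0) := cgg
    have h2 : ContinuousOn (fun z : M × ℝ => phF δ F z.1 z.2) (univ ×ˢ Iio 0) := cph
    have h3 : ContinuousOn (fun z : M × ℝ => deriv (fun s => phF δ F z.1 s) z.2)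
      (univ ×ˢ Iio 0) := cdph
    have h4 : ContinuousOn (fun z : M × ℝ => (inner ℝ (F z.1 z.2) (HH (n := 2) F z.1 z.2) : ℝ))
      (univ ×ˢ Iio 0) := cin
    have h5 : ContinuousOn (fun z : M × ℝ => ‖F z.1 z.2‖ ^ 2) (univ ×ˢ Iio 0) := cF2
    exact ((h1.mul ((cκ.mul h4).neg.sub ((cκ.pow 2).mul h5))).mul h2).add (h1.mul h3)
  have hder : ∀ q, ∀ t < 0, HasDerivAt (g q) (g' q t) t := by
    intro q t ht
    exact (gg_der hS.mcf q ht).mul (hph q t ht)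
  -- the integrand
  have hI : ∀ q t, IgF δ F q t =
      dvg (n := 2) F (WFd 2 (-2 * t)⁻¹ (-2 * t) (cD δ) F t) q t
        - (g' q t - ‖HH (n := 2) F q t‖ ^ 2 * g q t) := by
    intro q t
    simp only [hg, hg', IgF]
    ring
  have hdiv : ∀ t < 0, Continuous (fun q =>
        dvg (n := 2) F (WFd 2 (-2 * t)⁻¹ (-2 * t) (cD δ) F t) q t) ∧
      ∫ q, dvg (n := 2) F (WFd 2 (-2 * t)⁻¹ (-2 * t) (cD δ) F t) q t ∂muM 2 F c χ t = 0 := by
    intro t ht
    obtain ⟨hX, hX0, -⟩ := (hML 2 N M F hS.mcf (-2 * t)⁻¹ (-2 * t) (cD δ) (hsm δ hδ)).1 t ht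
    obtain ⟨h1, h2⟩ := hFV 2 N M F c χ hS t ht _ hX
    refine ⟨h1, ?_⟩
    rw [← h2]
    refine integral_congr_ae (Eventually.of_forall fun q => ?_)
    simp only [hX0 q, add_zero]
  have cd : CST (fun q t => g' q t - ‖HH (n := 2) F q t‖ ^ 2 * g q t) := by
    have h1 : ContinuousOn (fun z : M × ℝ => g' z.1 z.2) (univ ×ˢ Iio 0) := cg'
    have h2 : ContinuousOn (fun z : M × ℝ => g z.1 z.2) (univ ×ˢ Iio 0) := cg
    have h3 : ContinuousOn (fun z : M × ℝ => ‖HH (n := 2) F z.1 z.2‖ ^ 2) (univ ×ˢ Iio 0) := cY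
    exact h1.sub (h3.mul h2)
  have hint : ∀ t < 0, ∫ q, IgF δ F q t ∂muM 2 F c χ t =
      -∫ q, (g' q t - ‖HH (n := 2) F q t‖ ^ 2 * g q t) ∂muM 2 F c χ t := by
    intro t ht
    obtain ⟨h1, h2⟩ := hdiv t ht
    rw [integral_congr_ae (Eventually.of_forall fun q => hI q t),
      integral_sub ((hmu t ht).2.2 _ h1).1 ((hmu t ht).2.2 _ (slice_CI1 cd ht)).1, h2, zero_sub]
  -- bounds
  have hbd : ∀ q, ∀ t < 0, 0 ≤ phF δ F q t ∧ phF δ F q t ≤ ‖HH (n := 2) F q t‖ ^ 2 := by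
    intro q t ht
    obtain ⟨A, T, ν, v, hA, -, eX, eH, eZ, -⟩ := hMD 2 N M F hS.mcf q t ht
    have hXY : XX A ≤ YY A := by
      have := hpin q t ht
      rw [eX, eH] at this
      exact this
    obtain ⟨-, -, -, -, h5, h6, -⟩ := hAF2 N A δ hA hδ.le hXY
    have e : phF δ F q t = fD δ (J3 A) := by
      unfold phF J3 YY
      rw [eX, eH, eZ]
    rw [e]
    refine ⟨h5, ?_⟩
    rw [eH]
    exact h6
  refine ⟨fun t ht => ⟨?_, ?_, ?_, ?_⟩, ?_⟩
  · have : (fun q => IgF δ F q t) = fun q =>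
        dvg (n := 2) F (WFd 2 (-2 * t)⁻¹ (-2 * t) (cD δ) F t) q t
          - (g' q t - ‖HH (n := 2) F q t‖ ^ 2 * g q t) := funext fun q => hI q t
    rw [this]
    exact (hdiv t ht).1.sub (slice_CI1 cd ht)
  · exact integral_nonneg fun q => mul_nonneg (hgg q t ht).1.le (hbd q t ht).1
  · refine integral_mono ((hmu t ht).2.2 _ (slice_CI1 cg ht)).1
      ((hmu t ht).2.2 _ (slice_CI1 cY ht)).1 fun q => ?_
    have h1 := hgg q t ht
    have h2 := hbd q t ht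
    calc ggF F q t * phF δ F q t ≤ 1 * phF δ F q t := mul_le_mul_of_nonneg_right h1.2 h2.1
      _ ≤ ‖HH (n := 2) F q t‖ ^ 2 := by rw [one_mul]; exact h2.2
  · have h := T2 g g' cg cg' hder t ht
    rw [hint t ht, neg_neg]
    exact h
  · have h := (T1 _ cd).neg
    refine h.congr fun t ht => ?_
    exact hint t ht

end Pool.Agent.Helper84.CL
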