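import Pool.Agent.Helper35.CL.StA

/-!
# CL MODULE CO: containment
-/

set_option autoImplicit false

namespace Pool.Agent.Helper84.CL

open Pool.Agent.Helper35.CL Helper32.CL Helper35.PI Helper35.PI2
open scoped ContDiff Manifold Topology ENNReal BigOperators
open MeasureTheory Set Filter

theorem hCO (hAE : StAE) (hDM : StDM) (hBR : StBR) : StCO := by
  intro N M _ _ _ _ _ _ _ _ F c χ hS c₀ hc₀ hpin
  obtain ⟨C, hC, hC1⟩ := hAE N M F c χ hS c₀ hc₀ hpin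
  obtain ⟨q₀⟩ : Nonempty M := inferInstance
  set B : ℝ := (32 * C + 128) * C with hB
  have hB0 : 0 ≤ B := by positivity
  refine ⟨2 * Real.sqrt B + ‖F q₀ (-1)‖ + 1, by positivity, fun t ht q => ?_⟩
  have ht0 : t < 0 := by linarith
  have ht1 : 1 ≤ -t := by linarith
  have hs1 : 1 ≤ Real.sqrt (-t) := by
    rw [show (1 : ℝ) = Real.sqrt 1 by simp]
    exact Real.sqrt_le_sqrt ht1
  obtain ⟨hW, hA⟩ := hC1 t ht
  have hdist : ∀ p, ‖F p t - F q₀ t‖ ≤ Real.sqrt B * Real.sqrt (-t) := by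
    intro p
    rw [← Real.sqrt_mul hB0]
    apply Real.le_sqrt_of_sq_le
    refine (hDM N M F c χ hS t ht0 p q₀).trans ?_
    have ha : 0 ≤ (muM 2 F c χ t).real univ := measureReal_nonneg
    calc (32 * (∫ z, ‖HH (n := 2) F z t‖ ^ 2 ∂(muM 2 F c χ t)) + 128)
          * (muM 2 F c χ t).real univ
        ≤ (32 * C + 128) * (muM 2 F c χ t).real univ :=
          mul_le_mul_of_nonneg_right (by linarith) ha
      _ ≤ (32 * C + 128) * (C * (-t)) := mul_le_mul_of_nonneg_left hA (by positivity)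
      _ = B * (-t) := by rw [hB]; ring
  have hR0 : 0 ≤ Real.sqrt B * Real.sqrt (-t) := by positivity
  have h2 := hBR N M F c χ hS (F q₀ t) (Real.sqrt B * Real.sqrt (-t)) t (-1) hR0 ht
    (by norm_num) hdist q₀
  have h1 := hdist q
  have e : F q t = (F q t - F q₀ t) - (F q₀ (-1) - F q₀ t) + F q₀ (-1) := by abel
  have h3 : ‖F q t‖ ≤ ‖F q t - F q₀ t‖ + ‖F q₀ (-1) - F q₀ t‖ + ‖F q₀ (-1)‖ := by
    calc ‖F q t‖ = ‖(F q t - F q₀ t) - (F q₀ (-1) - F q₀ t) + F q₀ (-1)‖ := by rw [← e]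
      _ ≤ ‖(F q t - F q₀ t) - (F q₀ (-1) - F q₀ t)‖ + ‖F q₀ (-1)‖ := norm_add_le _ _
      _ ≤ _ := by
        have := norm_sub_le (F q t - F q₀ t) (F q₀ (-1) - F q₀ t)
        linarith
  have h4 : ‖F q₀ (-1)‖ ≤ ‖F q₀ (-1)‖ * Real.sqrt (-t) :=
    le_mul_of_one_le_right (norm_nonneg _) hs1
  have h5 : (2 * Real.sqrt B + ‖F q₀ (-1)‖ + 1) * Real.sqrt (-t) =
      Real.sqrt B * Real.sqrt (-t) + Real.sqrt B * Real.sqrt (-t) +
        ‖F q₀ (-1)‖ * Real.sqrt (-t) + Real.sqrt (-t) := by ring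
  rw [h5]
  linarith

end Pool.Agent.Helper84.CL
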